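import Pool.Agent.H63.SP.Comm

/-!
Splitting automorphisms for which every element commutes with its image (for instance all
`H_g` are abelian): a periodic group without elements of order `p` is then nilpotent of class at
most `2`, for every prime `p`.

Proof: `[g^φ, h] = [g, h^φ]` for all `g, h`. Expanding `[g^φ, y z] = [g, y^φ z^φ]` shows that
conjugation by `y` and by `y^φ` agree on all commutators, so by the splitting identity conjugation
by `y ^ p` is trivial on all commutators, and `y` is a power of `y ^ p`.
-/

set_option autoImplicit false

namespace Pool.Agent.Results.MP_5c9d8c_al.AbelianOrbits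

/-- A group whose element orders are prime to `p`, with a splitting automorphism `φ` of order
dividing `p` such that every element commutes with its image, has nilpotency class at most `2`.
(`p` need not be prime.) -/
theorem result (G : Type*) [Group G] (p : ℕ) (hG : ∀ g : G, Nat.Coprime (orderOf g) p)
    (φ : MulAut G) (hφ : ∀ g : G, ((List.range p).map (fun i => (φ ^ i) g)).prod = 1)
    (hcomm : ∀ g : G, Commute g (φ g)) :
    Subgroup.upperCentralSeries G 2 = ⊤ := by
  refine Pool.Agent.H63.SP.class_two' φ (fun x => (hcomm x).eq) p hφ fun y => ?_
  obtain ⟨m, hm⟩ := exists_pow_eq_self_of_coprime (hG y).symm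
  exact Subgroup.mem_zpowers_iff.2 ⟨m, by rw [zpow_natCast]; exact hm⟩

end Pool.Agent.Results.MP_5c9d8c_al.AbelianOrbits
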