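import Pool.Agent.H63.SP.Two

/-!
Order three: a group without elements of order three that has a splitting automorphism `φ` of
order three (`g g^φ g^{φφ} = 1` for all `g`) is nilpotent of class at most `2`.

Proof: applied to `g h` the identity gives `[h⁻¹, g] = [h^φ, (g^{φφ})⁻¹]`; three steps of
`[h, g] = [(h^φ)⁻¹, (g^{φφ})⁻¹]` give `[h, g] = [h⁻¹, g⁻¹]`, that is, `g h` commutes with `h g`.
So every element commutes with all its conjugates, and then all triple commutators have cube `1`
(Levi).
-/

set_option autoImplicit false

namespace Pool.Agent.Results.MP_5c9d8c_al.OrderThree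

/-- Every group without elements of order three that has a splitting automorphism of order three
has nilpotency class at most `2`. -/
theorem result (G : Type*) [Group G] (hG : ∀ g : G, g ^ 3 = 1 → g = 1) (φ : MulAut G)
    (hφ : ∀ x, x * φ x * φ (φ x) = 1) :
    Subgroup.upperCentralSeries G 2 = ⊤ :=
  Pool.Agent.H63.SP.class_two (Pool.Agent.H63.SP.engel φ.toMonoidHom hφ) hG

end Pool.Agent.Results.MP_5c9d8c_al.OrderThree
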